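import Pool.Agent.W618.PC.Desc

set_option autoImplicit false

/-!
One arc is added to a network (project PC of helper618, part PC-ADDARC).
-/

open Set Topology Filter

namespace Pool.Agent.W376.PCA

open Pool.Agent.W618.PC

/-- The common part of the two cases. -/
theorem core {X : Type} [MetricSpace X] {M : ℕ} {F : ℕ → Set X}
    {j : ℕ} {Hb H B D : Set X} {l : X → ℝ} {S : Set X} {ε κ τ : ℝ}
    (sh : Sh M F j Hb H B D l S ε κ) {p : X} (hτ : 0 < τ) (hε : 0 ≤ ε)
    {w : ℝ → X} {θ : X → ℝ} {f : ℝ → ℝ} {s e : ℝ} (hw : Continuous w) (hθ : Continuous θ)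
    (hf : Continuous f) (hs0 : 0 ≤ s) (hse : s ≤ e)
    (hθw : ∀ t ∈ Icc (0 : ℝ) e, θ (w t) = t) (hw0 : w 0 = p)
    (hwF : ∀ t ∈ Icc (0 : ℝ) e, w t ∈ F (j + 1)) (hwb : ∀ t ∈ Icc (0 : ℝ) e, dist (w t) p ≤ ε)
    (hZ : w e ∈ Hb ∪ F j ∪ D)
    (hfs : ∀ t ≤ s, f t = j + 1) (hfa : ∀ a b : ℝ, a ≤ b → f b ≤ f a)
    (hf0 : ∀ t, (j : ℝ) ≤ f t)
    (H1 : ∀ t ∈ Icc (0 : ℝ) s, w t ∉ F j ∧ w t ∉ Hb)
    (H2 : ∀ t ∈ Icc (0 : ℝ) e, w t ∈ H ∪ B ∪ D → l (w t) = f t)
    (H3 : ∀ t ∈ Icc (0 : ℝ) e, w t ∉ H ∪ B ∪ D → ∀ i ≤ M, (i : ℝ) < f t → w t ∉ F i)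
    (H4 : ∀ t ∈ Icc (0 : ℝ) e, ∀ i ≤ M, f t < (i : ℝ) → w t ∈ interior (F i))
    (H5 : ∀ t ∈ Icc s e, dist (w t) (w e) ≤ τ / 2)
    (H6 : ∀ t ∈ Icc s e, w t ∉ interior (F j)) (H7 : ∀ t ∈ Icc s e, w t ∈ F j → t = e) :
    ∃ (B' D' : Set X) (l' : X → ℝ), Sh M F j Hb H B' D' l' (S \ {p}) ε (κ + τ) ∧ B ⊆ B' ∧ D ⊆ D' ∧
      ∀ x ∈ H ∪ B ∪ D, l' x = l x := by
  classical
  have he0 : 0 ≤ e := hs0.trans hse
  set old : Set X := H ∪ B ∪ D with hold
  set l' : X → ℝ := fun x => if x ∈ old then l x else f (θ x) with hl'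
  have hl1 : ∀ x ∈ old, l' x = l x := fun x hx => if_pos hx
  have hl2 : ∀ t ∈ Icc (0 : ℝ) e, l' (w t) = f t := by
    intro t ht
    by_cases h : w t ∈ old
    · rw [hl1 _ h, H2 t ht h]
    · show (if w t ∈ old then l (w t) else f (θ (w t))) = f t
      rw [if_neg h, hθw t ht]
  set B' : Set X := B ∪ w '' Icc 0 s with hB'
  set D' : Set X := D ∪ w '' Icc s e with hD'
  have hI : Icc (0 : ℝ) s ∪ Icc s e = Icc 0 e := Icc_union_Icc_eq_Icc hs0 hse
  have hnew : H ∪ B' ∪ D' = old ∪ w '' Icc 0 e := by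
    rw [hB', hD', hold, ← hI, image_union]
    ext x
    simp only [mem_union]
    tauto
  have hAc : IsClosed (w '' Icc 0 e) := (isCompact_Icc.image hw).isClosed
  have holdc : IsClosed old := sh.nw.closed
  have hanti : ∀ a b : ℝ, 0 ≤ a → a ≤ b → b ≤ e → l' (w b) ≤ l' (w a) := by
    intro a b ha hab hb
    rw [hl2 a ⟨ha, hab.trans hb⟩, hl2 b ⟨ha.trans hab, hb⟩]
    exact hfa a b hab
  have hsub : old ⊆ H ∪ B' ∪ D' := by rw [hnew]; exact subset_union_left
  -- descending from a point of the arc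
  have tail : ∀ t ∈ Icc (0 : ℝ) e, ∀ R : ℝ, (∀ t' ∈ Icc t e, dist (w t') (w t) ≤ R) →
      (w e ∈ D → dist (w e) (w t) + κ ≤ R) →
      ∃ z ∈ Hb ∪ F j, Desc l' ((H ∪ B' ∪ D') ∩ Metric.closedBall (w t) R) (w t) z := by
    intro t ht R hR hRκ
    have d1 : Desc l' ((H ∪ B' ∪ D') ∩ Metric.closedBall (w t) R) (w t) (w e) := by
      refine Desc.of_piece hw ht.2 ?_ ?_
      · intro t' ht'
        refine ⟨?_, Metric.mem_closedBall.2 (hR t' ht')⟩
        rw [hnew]
        exact Or.inr ⟨t', ⟨ht.1.trans ht'.1, ht'.2⟩, rfl⟩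
      · intro a b ha hab hb
        exact hanti a b (ht.1.trans ha) hab hb
    rcases hZ with hz | hz
    · exact ⟨w e, hz, d1⟩
    · obtain ⟨z, hz1, hz2⟩ := sh.Dd (w e) hz
      refine ⟨z, hz1, d1.trans ?_⟩
      have h1 : Desc l' (old ∩ Metric.closedBall (w e) κ) (w e) z :=
        hz2.congr fun y hy => hl1 y hy.1
      refine h1.mono ?_
      rintro y ⟨hy1, hy2⟩
      refine ⟨hsub hy1, ?_⟩
      rw [Metric.mem_closedBall] at hy2 ⊢
      have h2 := dist_triangle y (w e) (w t)
      have h3 := hRκ hz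
      linarith
  refine ⟨B', D', l', ?_, subset_union_left, subset_union_left, hl1⟩
  refine
    { κ0 := by linarith [sh.κ0]
      nw := ?_
      Hbc := sh.Hbc
      HbH := sh.HbH
      Hc := sh.Hc
      Bc := sh.Bc.union (isCompact_Icc.image hw).isClosed
      Dc := sh.Dc.union (isCompact_Icc.image hw).isClosed
      BF := ?_
      BFj := ?_
      BHb := ?_
      Bl := ?_
      DF := ?_
      Dint := ?_
      Dfin := ?_
      HF := ?_
      Bd := ?_
      Dd := ?_ }
  · -- network
    rw [hnew]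
    refine
      { closed := holdc.union hAc
        cont := ?_
        nonneg := ?_
        lo := ?_
        hi := ?_
        net := ?_ }
    · refine ContinuousOn.union_of_isClosed ?_ ?_ holdc hAc
      · exact sh.nw.cont.congr fun x hx => hl1 x hx
      · refine (hf.comp hθ).continuousOn.congr ?_
        rintro _ ⟨t, ht, rfl⟩
        rw [hl2 t ht, Function.comp_apply, hθw t ht]
    · rintro x (hx | ⟨t, ht, rfl⟩)
      · rw [hl1 x hx]; exact sh.nw.nonneg x hx
      · rw [hl2 t ht]
        exact (Nat.cast_nonneg j).trans (hf0 t)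
    · rintro x (hx | ⟨t, ht, rfl⟩) i hi hlt
      · rw [hl1 x hx] at hlt
        exact sh.nw.lo x hx i hi hlt
      · rw [hl2 t ht] at hlt
        exact H4 t ht i hi hlt
    · rintro x (hx | ⟨t, ht, rfl⟩) i hi hlt
      · rw [hl1 x hx] at hlt
        exact sh.nw.hi x hx i hi hlt
      · by_cases h : w t ∈ old
        · rw [hl1 _ h] at hlt
          exact sh.nw.hi _ h i hi hlt
        · rw [hl2 t ht] at hlt
          exact H3 t ht h i hi hlt
    · have n1 : NetOn l' old := NetOn.congr (l := l) sh.nw.net hl1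
      have n2 : NetOn l' (w '' Icc 0 e) := netOn_piece hw hanti
      exact n1.union n2
  · rintro x (hx | ⟨t, ht, rfl⟩)
    · exact sh.BF hx
    · exact hwF t ⟨ht.1, ht.2.trans hse⟩
  · rintro x (hx | ⟨t, ht, rfl⟩)
    · exact sh.BFj x hx
    · exact (H1 t ht).1
  · rintro x (hx | ⟨t, ht, rfl⟩)
    · exact sh.BHb x hx
    · exact (H1 t ht).2
  · rintro x (hx | ⟨t, ht, rfl⟩)
    · rw [hl1 x (Or.inl (Or.inr hx))]; exact sh.Bl x hx
    · rw [hl2 t ⟨ht.1, ht.2.trans hse⟩]; exact hfs t ht.2
  · rintro x (hx | ⟨t, ht, rfl⟩)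
    · exact sh.DF hx
    · exact hwF t ⟨hs0.trans ht.1, ht.2⟩
  · rintro x (hx | ⟨t, ht, rfl⟩)
    · exact sh.Dint x hx
    · exact H6 t ht
  · refine (sh.Dfin.union (finite_singleton (w e))).subset ?_
    rintro x ⟨hx | ⟨t, ht, rfl⟩, hxF⟩
    · exact Or.inl ⟨hx, hxF⟩
    · right
      rw [H7 t ht hxF]
      rfl
  · intro x hx hxF
    rcases sh.HF x hx hxF with h | h
    · exact Or.inl h
    · exact Or.inr (Or.inl h)
  · -- bulk
    intro x hx
    by_cases hxw : x ∈ w '' Icc 0 s
    · right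
      obtain ⟨t, ht, rfl⟩ := hxw
      have ht' : t ∈ Icc (0 : ℝ) e := ⟨ht.1, ht.2.trans hse⟩
      have hd : ∀ t' ∈ Icc t e, dist (w t') (w t) ≤ 2 * ε := by
        intro t' htt
        have h1 := hwb t' ⟨ht.1.trans htt.1, htt.2⟩
        have h2 := hwb t ht'
        have h3 := dist_triangle_right (w t') (w t) p
        linarith
      refine tail t ht' _ ?_ ?_
      · intro t' htt
        have h1 := hd t' htt
        have h2 := sh.κ0
        linarith
      · intro _
        have h1 := hd e ⟨ht'.2, le_rfl⟩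
        linarith
    · have hxB : x ∈ B := by
        rcases hx with h | h
        · exact h
        · exact absurd h hxw
      rcases sh.Bd x hxB with h | ⟨z, hz, hd⟩
      · left
        refine ⟨h, ?_⟩
        intro hxp
        apply hxw
        refine ⟨0, ⟨le_rfl, hs0⟩, ?_⟩
        rw [hw0]
        exact hxp.symm
      · right
        refine ⟨z, hz, ?_⟩
        have h1 : Desc l' (old ∩ Metric.closedBall x (2 * ε + κ)) x z :=
          hd.congr fun y hy => hl1 y hy.1
        refine h1.mono ?_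
        exact inter_subset_inter hsub (Metric.closedBall_subset_closedBall (by linarith))
  · -- tails
    rintro x (hx | ⟨t, ht, rfl⟩)
    · obtain ⟨z, hz, hd⟩ := sh.Dd x hx
      refine ⟨z, hz, ?_⟩
      have h1 : Desc l' (old ∩ Metric.closedBall x κ) x z := hd.congr fun y hy => hl1 y hy.1
      refine h1.mono ?_
      exact inter_subset_inter hsub (Metric.closedBall_subset_closedBall (by linarith))
    · have hk := sh.κ0
      have h5 := H5 t ht
      rw [dist_comm] at h5
      refine tail t ⟨hs0.trans ht.1, ht.2⟩ _ ?_ ?_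
      · intro t' htt
        have h1 := H5 t' ⟨ht.1.trans htt.1, htt.2⟩
        have h3 := dist_triangle (w t') (w e) (w t)
        linarith
      · intro _
        linarith

theorem addarc (arc : S_ARC) : S_ADDARC := by
  classical
  intro X _ _ M F j Hb H B D l S ε κ lev hjM sh p hp z₀ hz₀ hj τ hτ
  have hF0 : F 0 ⊆ F j := lev.mono (Nat.zero_le j) hjM.le
  have hpne : p ≠ z₀ := by
    rintro rfl
    rcases hz₀ with h | h
    · exact sh.BHb p hp h
    · exact sh.BFj p hp (hF0 h)
  have hε : 0 ≤ ε := by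
    have h1 := hj.source_mem.2
    rw [Metric.mem_closedBall, dist_self] at h1
    exact h1
  obtain ⟨σ, hσ, hσ0, hσ1, hσA⟩ := exists_path hj
  obtain ⟨w, ψ, θ, hw, hθ, hθw, hw0, hw1, _, hψ⟩ := arc X σ hσ (by rw [hσ0, hσ1]; exact hpne)
  rw [hσ0] at hw0
  rw [hσ1] at hw1
  have hwA : ∀ t ∈ Icc (0 : ℝ) 1, w t ∈ F (j + 1) ∩ Metric.closedBall p ε := by
    intro t ht
    rw [(hψ t ht).2]
    exact hσA _ (hψ t ht).1
  have hFjc : IsClosed (F j) := lev.closed hjM.le
  set Z : Set X := Hb ∪ F j ∪ D with hZ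
  have hZc : IsClosed Z := (sh.Hbc.union hFjc).union sh.Dc
  have hTc : IsCompact (Icc (0 : ℝ) 1 ∩ w ⁻¹' Z) := isCompact_Icc.inter_right (hZc.preimage hw)
  have hTn : (Icc (0 : ℝ) 1 ∩ w ⁻¹' Z).Nonempty := by
    refine ⟨1, ⟨zero_le_one, le_rfl⟩, ?_⟩
    show w 1 ∈ Z
    rw [hw1]
    rcases hz₀ with h | h
    · exact Or.inl (Or.inl h)
    · exact Or.inl (Or.inr (hF0 h))
  obtain ⟨e, ⟨heI, heZ⟩, hemin⟩ := hTc.exists_isLeast hTn
  have heZ' : w e ∈ Z := heZ
  have he0 : 0 ≤ e := heI.1
  have he1 : e ≤ 1 := heI.2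
  have hI1 : ∀ t ∈ Icc (0 : ℝ) e, t ∈ Icc (0 : ℝ) 1 := fun t ht => ⟨ht.1, ht.2.trans he1⟩
  have hnZ : ∀ t, 0 ≤ t → t < e → w t ∉ Z := by
    intro t ht hte h
    have := hemin ⟨⟨ht, hte.le.trans he1⟩, h⟩
    linarith
  have hnB : ∀ t, 0 ≤ t → t < e → w t ∈ H ∪ B ∪ D → w t ∈ B := by
    intro t ht hte h
    have h1 := hnZ t ht hte
    rcases h with (h | h) | h
    · rcases sh.HF _ h (hwA t ⟨ht, hte.le.trans he1⟩).1 with h2 | h2
      · exact absurd (Or.inl (Or.inl h2)) h1
      · exact h2
    · exact h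
    · exact absurd (Or.inr h) h1
  have hzint : w e ∉ interior (F j) := by
    intro hint
    rcases he0.eq_or_lt with h | h
    · rw [← h, hw0] at hint
      exact sh.BFj p hp (interior_subset hint)
    · have hop : IsOpen (w ⁻¹' interior (F j)) := isOpen_interior.preimage hw
      obtain ⟨δ, hδ, hball⟩ := Metric.isOpen_iff.1 hop e hint
      set t := max (e - δ / 2) (e / 2) with ht
      have h1 : t < e := max_lt (by linarith) (by linarith)
      have h2 : 0 ≤ t := le_trans (by linarith) (le_max_right _ _)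
      have h3 : t ∈ Metric.ball e δ := by
        rw [Metric.mem_ball, Real.dist_eq, abs_sub_comm, abs_of_nonneg (by linarith)]
        have := le_max_left (e - δ / 2) (e / 2)
        linarith
      have h4 : w t ∈ interior (F j) := hball h3
      exact hnZ t h2 h1 (Or.inl (Or.inr (interior_subset h4)))
  have hjM1 : j + 1 ≤ M := hjM
  by_cases hzB : w e ∈ B
  · -- case A
    refine core (s := e) (f := fun _ => (j : ℝ) + 1) sh hτ hε hw hθ continuous_const he0 le_rfl
      (fun t ht => hθw t (hI1 t ht)) hw0 (fun t ht => (hwA t (hI1 t ht)).1)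
      (fun t ht => Metric.mem_closedBall.1 (hwA t (hI1 t ht)).2) heZ'
      (fun _ _ => rfl) (fun _ _ _ => le_rfl) (fun _ => by linarith) ?_ ?_ ?_ ?_ ?_ ?_ ?_
    · intro t ht
      rcases ht.2.eq_or_lt with h | h
      · rw [h]
        exact ⟨sh.BFj _ hzB, sh.BHb _ hzB⟩
      · have h1 := hnZ t ht.1 h
        exact ⟨fun h2 => h1 (Or.inl (Or.inr h2)), fun h2 => h1 (Or.inl (Or.inl h2))⟩
    · intro t ht h
      rcases ht.2.eq_or_lt with h1 | h1
      · rw [h1]; exact sh.Bl _ hzB
      · exact sh.Bl _ (hnB t ht.1 h1 h)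
    · intro t ht _ i hi hlt hmem
      have hij : i ≤ j := by
        have : i < j + 1 := by exact_mod_cast hlt
        omega
      have h2 : w t ∈ F j := lev.mono hij hjM.le hmem
      rcases ht.2.eq_or_lt with h1 | h1
      · rw [h1] at h2
        exact sh.BFj _ hzB h2
      · exact hnZ t ht.1 h1 (Or.inl (Or.inr h2))
    · intro t ht i hi hlt
      have hij : j + 1 < i := by exact_mod_cast hlt
      exact lev.mono_int hij hi (hwA t (hI1 t ht)).1
    · intro t ht
      have : t = e := le_antisymm ht.2 ht.1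
      rw [this, dist_self]
      linarith
    · intro t ht
      have : t = e := le_antisymm ht.2 ht.1
      rw [this]
      exact hzint
    · intro t ht _
      exact le_antisymm ht.2 ht.1
  · -- case B
    have hepos : 0 < e := by
      rcases he0.eq_or_lt with h | h
      · exfalso
        apply hzB
        rw [← h, hw0]
        exact hp
      · exact h
    have hSc : IsCompact (Icc (0 : ℝ) e ∩ w ⁻¹' B) := isCompact_Icc.inter_right (sh.Bc.preimage hw)
    have hSn : (Icc (0 : ℝ) e ∩ w ⁻¹' B).Nonempty := by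
      refine ⟨0, ⟨le_rfl, he0⟩, ?_⟩
      show w 0 ∈ B
      rw [hw0]
      exact hp
    obtain ⟨s0, ⟨hs0I, hs0B⟩, hs0max⟩ := hSc.exists_isGreatest hSn
    have hs0e : s0 < e := by
      rcases hs0I.2.eq_or_lt with h | h
      · exfalso
        apply hzB
        rw [← h]
        exact hs0B
      · exact h
    set c : ℝ := if w e ∈ H ∪ B ∪ D then l (w e) else j with hc
    have hwe := hwA e ⟨he0, he1⟩
    have hc1 : c ≤ j + 1 := by
      rw [hc]
      split_ifs with h
      · by_contra hlt
        push Not at hlt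
        exact sh.nw.hi _ h (j + 1) hjM1 (by push_cast; exact hlt) hwe.1
      · linarith
    have hc0 : (j : ℝ) ≤ c := by
      rw [hc]
      split_ifs with h
      · by_contra hlt
        push Not at hlt
        exact hzint (sh.nw.lo _ h j hjM.le hlt)
      · exact le_rfl
    have hc2 : c < j + 1 → w e ∈ interior (F (j + 1)) := by
      intro hlt
      by_cases h : w e ∈ H ∪ B ∪ D
      · rw [hc, if_pos h] at hlt
        exact sh.nw.lo _ h (j + 1) hjM1 (by push_cast; exact hlt)
      · have h1 : w e ∈ F j := by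
          rcases heZ' with (h2 | h2) | h2
          · exact absurd (Or.inl (Or.inl (sh.HbH h2))) h
          · exact h2
          · exact absurd (Or.inr h2) h
        exact lev.step j hjM h1
    -- a small neighbourhood of the end
    set U : Set X := Metric.ball (w e) (τ / 2) ∩ {x | c < j + 1 → x ∈ interior (F (j + 1))} with hU
    have hUo : IsOpen U := by
      refine Metric.isOpen_ball.inter ?_
      by_cases h : c < j + 1
      · have : {x | c < j + 1 → x ∈ interior (F (j + 1))} = interior (F (j + 1)) := by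
          ext x
          simp [h]
        rw [this]
        exact isOpen_interior
      · have : {x | c < j + 1 → x ∈ interior (F (j + 1))} = univ := by
          ext x
          simp [h]
        rw [this]
        exact isOpen_univ
    have hUe : w e ∈ U := ⟨Metric.mem_ball_self (by linarith), hc2⟩
    obtain ⟨δ, hδ, hball⟩ := Metric.isOpen_iff.1 (hUo.preimage hw) e hUe
    set s := max (e - δ / 2) ((s0 + e) / 2) with hs
    have hs1 : s < e := max_lt (by linarith) (by linarith)
    have hs2 : s0 < s := lt_of_lt_of_le (by linarith) (le_max_right _ _)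
    have hs3 : 0 ≤ s := hs0I.1.trans hs2.le
    have hsU : ∀ t ∈ Icc s e, w t ∈ U := by
      intro t ht
      have h3 : t ∈ Metric.ball e δ := by
        rw [Metric.mem_ball, Real.dist_eq, abs_sub_comm, abs_of_nonneg (by linarith [ht.2])]
        have h4 := le_max_left (e - δ / 2) ((s0 + e) / 2)
        have h5 := ht.1
        linarith
      exact hball h3
    have hes : 0 < e - s := by linarith
    set f : ℝ → ℝ := fun t => (j + 1) + max 0 (min 1 ((t - s) / (e - s))) * (c - (j + 1)) with hf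
    have hfc : Continuous f := by
      rw [hf]
      fun_prop
    have hm0 : ∀ t, 0 ≤ max 0 (min 1 ((t - s) / (e - s))) := fun t => le_max_left _ _
    have hm1 : ∀ t, max 0 (min 1 ((t - s) / (e - s))) ≤ 1 := fun t =>
      max_le zero_le_one (min_le_left _ _)
    have hfs : ∀ t ≤ s, f t = j + 1 := by
      intro t ht
      have h1 : (t - s) / (e - s) ≤ 0 := div_nonpos_of_nonpos_of_nonneg (by linarith) hes.le
      have h2 : max 0 (min 1 ((t - s) / (e - s))) = 0 :=
        max_eq_left ((min_le_right _ _).trans h1)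
      simp only [hf, h2, zero_mul, add_zero]
    have hfe : f e = c := by
      have h1 : (e - s) / (e - s) = 1 := div_self hes.ne'
      simp only [hf, h1, min_self, max_eq_right zero_le_one, one_mul]
      ring
    have hfa : ∀ a b : ℝ, a ≤ b → f b ≤ f a := by
      intro a b hab
      have h1 : max 0 (min 1 ((a - s) / (e - s))) ≤ max 0 (min 1 ((b - s) / (e - s))) := by
        gcongr
      have h2 := mul_le_mul_of_nonpos_right h1 (show c - (j + 1) ≤ 0 by linarith)
      simp only [hf]
      linarith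
    have hfle : ∀ t, f t ≤ j + 1 := by
      intro t
      have h1 := mul_nonpos_of_nonneg_of_nonpos (hm0 t) (show c - (j + 1) ≤ 0 by linarith)
      simp only [hf]
      linarith
    have hf0 : ∀ t, (j : ℝ) ≤ f t := by
      intro t
      have h2 := mul_le_mul_of_nonpos_right (hm1 t) (show c - (j + 1) ≤ 0 by linarith)
      simp only [hf]
      linarith
    refine core (s := s) (f := f) sh hτ hε hw hθ hfc hs3 hs1.le
      (fun t ht => hθw t (hI1 t ht)) hw0 (fun t ht => (hwA t (hI1 t ht)).1)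
      (fun t ht => Metric.mem_closedBall.1 (hwA t (hI1 t ht)).2) heZ'
      hfs hfa hf0 ?_ ?_ ?_ ?_ ?_ ?_ ?_
    · intro t ht
      have h1 := hnZ t ht.1 (lt_of_le_of_lt ht.2 hs1)
      exact ⟨fun h2 => h1 (Or.inl (Or.inr h2)), fun h2 => h1 (Or.inl (Or.inl h2))⟩
    · intro t ht h
      rcases ht.2.eq_or_lt with h1 | h1
      · rw [h1] at h ⊢
        rw [hfe, hc, if_pos h]
      · have h2 := hnB t ht.1 h1 h
        have h3 : t ≤ s0 := hs0max ⟨ht, h2⟩
        rw [sh.Bl _ h2, hfs t (h3.trans hs2.le)]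
    · intro t ht hnold i hi hlt hmem
      have hij : i ≤ j := by
        have h1 : (i : ℝ) < j + 1 := lt_of_lt_of_le hlt (hfle t)
        have : i < j + 1 := by exact_mod_cast h1
        omega
      rcases ht.2.eq_or_lt with h1 | h1
      · rw [h1] at hnold hlt hmem
        rw [hfe, hc, if_neg hnold] at hlt
        have h2 : i < j := by exact_mod_cast hlt
        exact hzint (lev.mono_int h2 hjM.le hmem)
      · exact hnZ t ht.1 h1 (Or.inl (Or.inr (lev.mono hij hjM.le hmem)))
    · intro t ht i hi hlt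
      have h1 : j < i := by
        have : (j : ℝ) < i := lt_of_le_of_lt (hf0 t) hlt
        exact_mod_cast this
      rcases (Nat.succ_le_of_lt h1).eq_or_lt with h2 | h2
      · rw [← h2] at hlt ⊢
        have h3 : f t < j + 1 := by
          have : (((j + 1 : ℕ)) : ℝ) = j + 1 := by push_cast; ring
          rw [← this]
          exact hlt
        have h4 : s < t := by
          by_contra h5
          push Not at h5
          rw [hfs t h5] at h3
          exact lt_irrefl _ h3
        have h5 : c < j + 1 := by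
          have h6 : f e ≤ f t := hfa t e ht.2
          rw [hfe] at h6
          exact lt_of_le_of_lt h6 h3
        exact (hsU t ⟨h4.le, ht.2⟩).2 h5
      · exact lev.mono_int h2 hi (hwA t (hI1 t ht)).1
    · intro t ht
      exact (Metric.mem_ball.1 (hsU t ht).1).le
    · intro t ht
      rcases ht.2.eq_or_lt with h1 | h1
      · rw [h1]; exact hzint
      · intro h2
        exact hnZ t (hs3.trans ht.1) h1 (Or.inl (Or.inr (interior_subset h2)))
    · intro t ht h2
      rcases ht.2.eq_or_lt with h1 | h1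
      · exact h1
      · exact absurd (Or.inl (Or.inr h2)) (hnZ t (hs3.trans ht.1) h1)

end Pool.Agent.W376.PCA
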